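import Pool.Agent.K3h48.HM.Stm

/-!
# The geometric notions of MP_d2b80e_pr: drift, critical exponent, hitting measure,
Patterson–Sullivan measure
-/

set_option autoImplicit false

open Filter Topology MeasureTheory

namespace Pool.Agent.K3h48.HM

/-- The asymptotic entropy `h(μ) = inf_k H(μ^{*k}) / k`; by `S_FEK` it is the limit of
`H(μ^{*k}) / k`. -/
noncomputable def asympEntropy {G : Type} [Group G] (μ : MonoidAlgebra ℝ G) : ℝ :=
  ⨅ k : ℕ, H (μ ^ (k + 1)) / (k + 1)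

/-- A matrix `± g̃` in the class `g`; nothing below depends on the sign. -/
noncomputable def lift (g : PSL) : Matrix.SpecialLinearGroup (Fin 2) ℝ := Quotient.out g

/-- The orbit point `g o`, where `o = i` is the base point of the upper half-plane. -/
noncomputable def orb (g : PSL) : UpperHalfPlane := lift g • UpperHalfPlane.I

/-- The displacement `d(o, g o)`. -/
noncomputable def disp (g : PSL) : ℝ := dist UpperHalfPlane.I (orb g)

/-- `ℓ` is the drift of `μ`: the limit of `E d(o, Z_k o) / k`. -/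
def IsDrift (μ : MonoidAlgebra ℝ PSL) (l : ℝ) : Prop :=
  Tendsto (fun k : ℕ => (∑ g ∈ (μ ^ k).coeff.support, (μ ^ k).coeff g * disp g) / k)
    atTop (𝓝 l)

/-- `v` is the critical exponent of `Γ`: the abscissa of convergence of the Poincaré series
`∑_{g ∈ Γ} exp(-s d(o, g o))`. -/
def IsCritExp (Γ : Subgroup PSL) (v : ℝ) : Prop :=
  (∀ s > v, Summable fun g : Γ => Real.exp (-s * disp g)) ∧
  ∀ s < v, ¬ Summable fun g : Γ => Real.exp (-s * disp g)

/-- A boundary point `ξ ∈ ∂ℍ² = ℝ ∪ {∞}` as a point of `ℂ ∪ {∞}`. -/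
noncomputable def bd (ξ : OnePoint ℝ) : OnePoint ℂ := ξ.map (fun x : ℝ => (x : ℂ))

/-- The orbit point `g o` as a point of `ℂ ∪ {∞}`. -/
noncomputable def orbC (g : PSL) : OnePoint ℂ := (((orb g : UpperHalfPlane) : ℂ) : OnePoint ℂ)

/-- The Borel structure of `∂ℍ²`. -/
instance borelBd : MeasurableSpace (OnePoint ℝ) := borel _

/-- `ν` is the hitting measure of `μ`: for i.i.d. steps `g_1, g_2, …` of law `μ` the points
`g_1 ⋯ g_k o` converge almost surely to a random boundary point `ξ` of law `ν`. -/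
def IsHitting (μ : MonoidAlgebra ℝ PSL) (ν : Measure (OnePoint ℝ)) : Prop :=
  ∃ (Ω : Type) (_ : MeasurableSpace Ω) (P : Measure Ω) (_ : IsProbabilityMeasure P)
    (g : ℕ → Ω → PSL) (ξ : Ω → OnePoint ℝ),
    (∀ (k : ℕ) (w : Fin k → PSL), MeasurableSet {ω | ∀ i : Fin k, g i ω = w i} ∧
      P {ω | ∀ i : Fin k, g i ω = w i} = ENNReal.ofReal (∏ i, μ.coeff (w i))) ∧
    Measurable ξ ∧
    (∀ᵐ ω ∂P, Tendsto (fun k : ℕ => orbC (List.ofFn fun i : Fin k => g i ω).prod) atTop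
      (𝓝 (bd (ξ ω)))) ∧
    ν = P.map ξ

/-- The limit set of `Γ`. -/
def limitSet (Γ : Subgroup PSL) : Set (OnePoint ℝ) :=
  {ξ | ∀ U ∈ 𝓝 (bd ξ), {g : PSL | g ∈ Γ ∧ orbC g ∈ U}.Infinite}

/-- The action of `PSL₂(ℝ)` on `∂ℍ²` by Möbius transformations. -/
noncomputable def act (g : PSL) (ξ : OnePoint ℝ) : OnePoint ℝ :=
  (lift g : Matrix.GeneralLinearGroup (Fin 2) ℝ) • ξ

/-- The conformal factor `|g'(ξ)|` of `g` at `ξ` for the round metric seen from `o`: it is
`|v|² / |g v|²` for a vector `v` on the line `ξ`, that is `v = (x, 1)` for `ξ = x ∈ ℝ` and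
`v = (1, 0)` for `ξ = ∞`. -/
noncomputable def jac (g : PSL) (ξ : OnePoint ℝ) : ℝ :=
  match ξ with
  | none => 1 / (lift g 0 0 ^ 2 + lift g 1 0 ^ 2)
  | some x => (x ^ 2 + 1) / ((lift g 0 0 * x + lift g 0 1) ^ 2 + (lift g 1 0 * x + lift g 1 1) ^ 2)

/-- `κ` is a Patterson–Sullivan measure of `Γ` of exponent `δ`: a finite nonzero Borel measure on
`∂ℍ²`, concentrated on the limit set, with `κ(g A) = ∫_A |g'|^δ dκ` for `g ∈ Γ`. -/
def IsPattersonSullivan (Γ : Subgroup PSL) (δ : ℝ) (κ : Measure (OnePoint ℝ)) : Prop :=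
  IsFiniteMeasure κ ∧ κ ≠ 0 ∧ κ (limitSet Γ)ᶜ = 0 ∧
  ∀ g ∈ Γ, ∀ A : Set (OnePoint ℝ), MeasurableSet A →
    κ (act g '' A) = ∫⁻ ξ in A, ENNReal.ofReal (jac g ξ ^ δ) ∂κ

/-- The data of the problem, in any topological group `G`: subgroups `Γ_n` converging
geometrically (in the Chabauty topology) to a discrete subgroup `Γ`, probability measures `μ_n`
and `μ` with finite supports `S_n ⊆ Γ_n` and `S`, such that `S_n → S` in the Hausdorff sense and
`μ_n(s_n) → μ(s)` whenever `s_n ∈ S_n` and `s_n → s ∈ S`. -/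
structure IsData {G : Type} [Group G] [TopologicalSpace G] (Γn : ℕ → Subgroup G) (Γ : Subgroup G)
    (μn : ℕ → MonoidAlgebra ℝ G) (μ : MonoidAlgebra ℝ G) : Prop where
  discrete : DiscreteTopology Γ
  conv : Chabauty (fun n => (Γn n : Set G)) (Γ : Set G)
  prob_n : ∀ n, IsProb (μn n)
  prob : IsProb μ
  supp_n : ∀ n, ((μn n).coeff.support : Set G) ⊆ Γn n
  hausdorff : HausdorffConv (fun n => (μn n).coeff.support) μ.coeff.support
  weights : ∀ (s : ℕ → G) (t : G), (∀ n, s n ∈ (μn n).coeff.support) →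
    t ∈ μ.coeff.support → Tendsto s atTop (𝓝 t) →
    Tendsto (fun n => (μn n).coeff (s n)) atTop (𝓝 (μ.coeff t))

end Pool.Agent.K3h48.HM
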