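import Pool.Agent.K3h48.HM.Defs
import Pool.Agent.K3h57.HM.Nss
import Pool.Agent.K3h99.HM.Top
import Pool.Agent.K3h4.HM.Cha
import Pool.Agent.K3h68.HM.Ent
import Pool.Agent.K3h37.HM.REP
import Pool.Agent.K3h64.HM.FEK

/-!
# Continuity of the `k`-step entropies and upper semicontinuity of the asymptotic entropy
-/

set_option autoImplicit false

open Filter Topology MeasureTheory

namespace Pool.Agent.K3h48.HM

section

variable {G : Type} [Group G] [TopologicalSpace G] [IsTopologicalGroup G]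

/-- `f_n → f` through finite sums of point masses at converging points of `Γ_n`. -/
def Rep (Γn : ℕ → Subgroup G) (f : ℕ → MonoidAlgebra ℝ G) (f' : MonoidAlgebra ℝ G) : Prop :=
  ∃ (I : Type) (_ : Fintype I) (c : ℕ → I → ℝ) (c' : I → ℝ) (y : ℕ → I → G) (y' : I → G),
    (∀ i, Tendsto (fun n => c n i) atTop (𝓝 (c' i))) ∧
    (∀ i, Tendsto (fun n => y n i) atTop (𝓝 (y' i))) ∧
    (∀ᶠ n in atTop, ∀ i, y n i ∈ Γn n) ∧
    (∀ᶠ n in atTop, f n = ∑ i, MonoidAlgebra.single (y n i) (c n i)) ∧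
    f' = ∑ i, MonoidAlgebra.single (y' i) (c' i)

theorem rep_one (Γn : ℕ → Subgroup G) : Rep Γn (fun _ => 1) 1 := by
  refine ⟨Unit, inferInstance, fun _ _ => 1, fun _ => 1, fun _ _ => 1, fun _ => 1,
    fun _ => tendsto_const_nhds, fun _ => tendsto_const_nhds, ?_, ?_, ?_⟩
  · exact Eventually.of_forall fun n _ => (Γn n).one_mem
  · refine Eventually.of_forall fun n => ?_
    simp [MonoidAlgebra.one_def]
  · simp [MonoidAlgebra.one_def]

theorem rep_mul {Γn : ℕ → Subgroup G} {f g : ℕ → MonoidAlgebra ℝ G} {f' g' : MonoidAlgebra ℝ G}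
    (hf : Rep Γn f f') (hg : Rep Γn g g') : Rep Γn (fun n => f n * g n) (f' * g') := by
  obtain ⟨I, _, c, c', y, y', h1, h2, h3, h4, h5⟩ := hf
  obtain ⟨J, _, d, d', z, z', k1, k2, k3, k4, k5⟩ := hg
  refine ⟨I × J, inferInstance, fun n p => c n p.1 * d n p.2, fun p => c' p.1 * d' p.2,
    fun n p => y n p.1 * z n p.2, fun p => y' p.1 * z' p.2, fun p => (h1 p.1).mul (k1 p.2),
    fun p => (h2 p.1).mul (k2 p.2), ?_, ?_, ?_⟩
  · filter_upwards [h3, k3] with n a b p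
    exact (Γn n).mul_mem (a p.1) (b p.2)
  · filter_upwards [h4, k4] with n a b
    rw [a, b, Finset.sum_mul_sum, ← Finset.univ_product_univ, Finset.sum_product]
    simp only [MonoidAlgebra.single_mul_single]
  · rw [h5, k5, Finset.sum_mul_sum, ← Finset.univ_product_univ, Finset.sum_product]
    simp only [MonoidAlgebra.single_mul_single]

theorem rep_pow {Γn : ℕ → Subgroup G} {f : ℕ → MonoidAlgebra ℝ G} {f' : MonoidAlgebra ℝ G}
    (hf : Rep Γn f f') (k : ℕ) : Rep Γn (fun n => f n ^ k) (f' ^ k) := by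
  induction k with
  | zero => simpa using rep_one Γn
  | succ k ih => simpa only [pow_succ] using rep_mul ih hf

theorem rep_entropy [T2Space G] {Γn : ℕ → Subgroup G} {W : Set G} (hW : W ∈ 𝓝 (1 : G))
    (hWn : ∀ᶠ n in atTop, ∀ g ∈ Γn n, g ∈ W → g = 1)
    {f : ℕ → MonoidAlgebra ℝ G} {f' : MonoidAlgebra ℝ G}
    (hf : Rep Γn f f') : Tendsto (fun n => H (f n)) atTop (𝓝 (H f')) := by
  obtain ⟨I, _, c, c', y, y', h1, h2, h3, h4, h5⟩ := hf
  have := Pool.Agent.K3h68.HM.t_ENT G Γn W hW hWn I c c' y y' h1 h2 h3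
  rw [h5]
  refine this.congr' ?_
  filter_upwards [h4] with n hn
  rw [hn]

/-- Convergence of all `k`-step entropies in a locally compact group without small subgroups. -/
theorem tendsto_H [LocallyCompactSpace G] [T2Space G] (hG : NSS G) (Γn : ℕ → Subgroup G)
    (Γ : Subgroup G) (hd : DiscreteTopology Γ)
    (hc : Chabauty (fun n => (Γn n : Set G)) (Γ : Set G))
    (μn : ℕ → MonoidAlgebra ℝ G) (μ : MonoidAlgebra ℝ G) (hpn : ∀ n, IsProb (μn n))
    (hsn : ∀ n, ((μn n).coeff.support : Set G) ⊆ Γn n)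
    (hH : HausdorffConv (fun n => (μn n).coeff.support) μ.coeff.support)
    (hw : ∀ (s : ℕ → G) (t : G), (∀ n, s n ∈ (μn n).coeff.support) → t ∈ μ.coeff.support →
      Tendsto s atTop (𝓝 t) → Tendsto (fun n => (μn n).coeff (s n)) atTop (𝓝 (μ.coeff t)))
    (k : ℕ) : Tendsto (fun n => H (μn n ^ k)) atTop (𝓝 (H (μ ^ k))) := by
  obtain ⟨W, hW, hWn⟩ := Pool.Agent.K3h4.HM.t_CHA G hG Γn Γ hd hc
  obtain ⟨x, h1, h2, h3, h4⟩ := Pool.Agent.K3h37.HM.t_REP G Γn W hW hWn μn μ hpn hsn hH hw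
  refine rep_entropy hW hWn (rep_pow ?_ k)
  refine ⟨μ.coeff.support, inferInstance, fun n i => (μn n).coeff (x n i),
    fun i => μ.coeff i, x, fun i => i, h2, h1, h3, h4, ?_⟩
  apply MonoidAlgebra.coeff_injective
  rw [MonoidAlgebra.coeff_sum]
  simp only [MonoidAlgebra.coeff_single]
  rw [Finset.sum_coe_sort μ.coeff.support (fun g => Finsupp.single g (μ.coeff g))]
  exact (Finsupp.sum_single μ.coeff).symm

end

theorem H_nonneg' {G : Type} [Group G] {f : MonoidAlgebra ℝ G} (hf : IsProb f) : 0 ≤ H f :=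
  Pool.Agent.K3h64.HM.H_nonneg hf

/-- Upper semicontinuity of the asymptotic entropy. -/
theorem usc {G : Type} [Group G] {μn : ℕ → MonoidAlgebra ℝ G} {μ : MonoidAlgebra ℝ G}
    (hpn : ∀ n, IsProb (μn n)) (hp : IsProb μ)
    (h : ∀ k : ℕ, Tendsto (fun n => H (μn n ^ k)) atTop (𝓝 (H (μ ^ k))))
    {b : ℝ} (hb : asympEntropy μ < b) : ∀ᶠ n in atTop, asympEntropy (μn n) < b := by
  unfold asympEntropy at hb
  obtain ⟨k, hk⟩ := exists_lt_of_ciInf_lt hb
  have h1 : Tendsto (fun n => H (μn n ^ (k + 1)) / ((k : ℝ) + 1)) atTop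
      (𝓝 (H (μ ^ (k + 1)) / ((k : ℝ) + 1))) := (h (k + 1)).div_const _
  filter_upwards [h1.eventually_lt_const hk] with n hn
  refine lt_of_le_of_lt (ciInf_le ⟨0, ?_⟩ k) hn
  rintro _ ⟨j, rfl⟩
  have : 0 ≤ H (μn n ^ (j + 1)) := H_nonneg' (Pool.Agent.K3h64.HM.isProb_pow (hpn n) _)
  positivity

end Pool.Agent.K3h48.HM
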