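import Mathlib

/-!
# Random walks on geometrically convergent Fuchsian groups: definitions and statements
(MP_d2b80e_pr)
-/

set_option autoImplicit false

open Filter Topology MeasureTheory

namespace Pool.Agent.K3h48.HM

/-! ### General groups -/

section General

variable {G : Type}

/-- Chabauty convergence of (closed) subsets: a compact set that misses the limit is eventually
missed, and an open set that meets the limit is eventually met. -/
def Chabauty [TopologicalSpace G] (A : ℕ → Set G) (B : Set G) : Prop :=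
  (∀ K : Set G, IsCompact K → Disjoint K B → ∀ᶠ n in atTop, Disjoint K (A n)) ∧
  (∀ O : Set G, IsOpen O → (O ∩ B).Nonempty → ∀ᶠ n in atTop, (O ∩ A n).Nonempty)

/-- Hausdorff convergence of finite subsets. -/
def HausdorffConv [TopologicalSpace G] (A : ℕ → Finset G) (B : Finset G) : Prop :=
  (∀ O : Set G, IsOpen O → (B : Set G) ⊆ O → ∀ᶠ n in atTop, (A n : Set G) ⊆ O) ∧
  (∀ O : Set G, IsOpen O → (O ∩ (B : Set G)).Nonempty →
    ∀ᶠ n in atTop, (O ∩ (A n : Set G)).Nonempty)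

/-- Shannon entropy of a finitely supported measure. -/
noncomputable def H (f : MonoidAlgebra ℝ G) : ℝ :=
  ∑ g ∈ f.coeff.support, Real.negMulLog (f.coeff g)

/-- `f` is a probability measure with finite support. -/
def IsProb (f : MonoidAlgebra ℝ G) : Prop :=
  (∀ g, 0 ≤ f.coeff g) ∧ ∑ g ∈ f.coeff.support, f.coeff g = 1

end General

/-- No small subgroups. -/
def NSS (G : Type) [Group G] [TopologicalSpace G] : Prop :=
  ∃ U ∈ 𝓝 (1 : G), ∀ g : G, (∀ k : ℕ, g ^ k ∈ U) → g = 1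

/-- `PSL₂(ℝ)` with its quotient topology. -/
abbrev PSL : Type :=
  Matrix.SpecialLinearGroup (Fin 2) ℝ ⧸ Subgroup.center (Matrix.SpecialLinearGroup (Fin 2) ℝ)

example : IsTopologicalGroup PSL := inferInstance
example : Group PSL := inferInstance

/-- brick NSS -/
def S_NSS : Prop := NSS PSL

/-- brick TOP -/
def S_TOP : Prop := LocallyCompactSpace PSL ∧ T2Space PSL

/-- brick CHA -/
def S_CHA : Prop := ∀ (G : Type) [Group G] [TopologicalSpace G] [IsTopologicalGroup G]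
    [LocallyCompactSpace G] [T2Space G], NSS G → ∀ (Γn : ℕ → Subgroup G) (Γ : Subgroup G),
    DiscreteTopology Γ → Chabauty (fun n => (Γn n : Set G)) (Γ : Set G) →
    ∃ W ∈ 𝓝 (1 : G), ∀ᶠ n in atTop, ∀ g ∈ Γn n, g ∈ W → g = 1

/-- brick ENT -/
def S_ENT : Prop := ∀ (G : Type) [Group G] [TopologicalSpace G] [IsTopologicalGroup G]
    [T2Space G] (Γn : ℕ → Subgroup G) (W : Set G), W ∈ 𝓝 (1 : G) →
    (∀ᶠ n in atTop, ∀ g ∈ Γn n, g ∈ W → g = 1) →
    ∀ (I : Type) [Fintype I] (c : ℕ → I → ℝ) (c' : I → ℝ) (y : ℕ → I → G) (y' : I → G),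
    (∀ i, Tendsto (fun n => c n i) atTop (𝓝 (c' i))) →
    (∀ i, Tendsto (fun n => y n i) atTop (𝓝 (y' i))) →
    (∀ᶠ n in atTop, ∀ i, y n i ∈ Γn n) →
    Tendsto (fun n => H (∑ i, MonoidAlgebra.single (y n i) (c n i))) atTop
      (𝓝 (H (∑ i, MonoidAlgebra.single (y' i) (c' i))))

/-- brick REP -/
def S_REP : Prop := ∀ (G : Type) [Group G] [TopologicalSpace G] [IsTopologicalGroup G]
    [T2Space G] (Γn : ℕ → Subgroup G) (W : Set G), W ∈ 𝓝 (1 : G) →
    (∀ᶠ n in atTop, ∀ g ∈ Γn n, g ∈ W → g = 1) →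
    ∀ (μn : ℕ → MonoidAlgebra ℝ G) (μ : MonoidAlgebra ℝ G),
    (∀ n, IsProb (μn n)) → (∀ n, ((μn n).coeff.support : Set G) ⊆ Γn n) →
    HausdorffConv (fun n => (μn n).coeff.support) μ.coeff.support →
    (∀ (s : ℕ → G) (t : G), (∀ n, s n ∈ (μn n).coeff.support) → t ∈ μ.coeff.support →
      Tendsto s atTop (𝓝 t) →
      Tendsto (fun n => (μn n).coeff (s n)) atTop (𝓝 (μ.coeff t))) →
    ∃ (x : ℕ → μ.coeff.support → G),
      (∀ i : μ.coeff.support, Tendsto (fun n => x n i) atTop (𝓝 (i : G))) ∧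
      (∀ i : μ.coeff.support,
        Tendsto (fun n => (μn n).coeff (x n i)) atTop (𝓝 (μ.coeff i))) ∧
      (∀ᶠ n in atTop, ∀ i, x n i ∈ Γn n) ∧
      ∀ᶠ n in atTop, μn n = ∑ i, MonoidAlgebra.single (x n i) ((μn n).coeff (x n i))

/-- brick FEK: subadditivity, so that the asymptotic entropy is the limit -/
def S_FEK : Prop := ∀ (G : Type) [Group G] (f : MonoidAlgebra ℝ G), IsProb f →
    Tendsto (fun k : ℕ => H (f ^ k) / k) atTop (𝓝 (⨅ k : ℕ, H (f ^ (k + 1)) / (k + 1)))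

end Pool.Agent.K3h48.HM
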